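import Mathlib

/-!
# A Voronovskaja-type estimate for complex bivariate Bernstein polynomials on the simplex

For a monomial, the Bernstein polynomial is expanded with Stirling numbers of the second kind:
`B_n(e_{kj}) = ∑ S(k,a) S(j,b) (n)_{a+b} n^{-k-j} w₁^a w₂^b`. The three largest coefficients match the
second-order operator up to `O((k+j)^4/n²)` and the others sum to `O((k+j)^4/n²)`. Summing over the
double power series of `f` gives the estimate.
-/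

open Finset

namespace Pool.Agent.Results.MP_814f17_an.VoronovskajaEstimate

/-- The bivariate Bernstein polynomial on the simplex, at complex arguments. -/
noncomputable def bern (n : ℕ) (f : ℂ → ℂ → ℂ) (w₁ w₂ : ℂ) : ℂ :=
  ∑ k ∈ range (n + 1), ∑ j ∈ range (n + 1 - k),
    ((n.factorial : ℂ) / ((k.factorial : ℂ) * (j.factorial : ℂ) * ((n - k - j).factorial : ℂ)))
      * w₁ ^ k * w₂ ^ j * (1 - w₁ - w₂) ^ (n - k - j) * f ((k : ℂ) / n) ((j : ℂ) / n)

lemma one_dim (h : ℕ → ℂ) (x : ℂ) : ∀ (a n : ℕ),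
    ∑ k ∈ range (n + 1), (n.choose k : ℂ) * ((k.descFactorial a : ℕ) : ℂ) * x ^ (k - a) * h (n - k)
      = (n.descFactorial a : ℂ) * ∑ k ∈ range (n - a + 1), ((n - a).choose k : ℂ) * x ^ k
          * h (n - a - k) := by
  intro a
  induction a with
  | zero => intro n; simp
  | succ a ih =>
    intro n
    cases n with
    | zero => simp
    | succ m =>
      rw [sum_range_succ']
      simp only [Nat.zero_descFactorial_succ, Nat.cast_zero, mul_zero, zero_mul, add_zero]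
      have h1 : ∀ k ∈ range (m + 1), ((m + 1).choose (k + 1) : ℂ)
          * (((k + 1).descFactorial (a + 1) : ℕ) : ℂ) * x ^ (k + 1 - (a + 1)) * h (m + 1 - (k + 1))
          = ((m + 1 : ℕ) : ℂ) * ((m.choose k : ℂ) * ((k.descFactorial a : ℕ) : ℂ) * x ^ (k - a)
            * h (m - k)) := by
        intro k _
        have e1 : (k + 1 - (a + 1)) = k - a := by omega
        have e2 : (m + 1 - (k + 1)) = m - k := by omega
        rw [e1, e2, Nat.succ_descFactorial_succ]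
        have e3 : ((m + 1).choose (k + 1) : ℂ) * ((k + 1 : ℕ) : ℂ) = ((m + 1 : ℕ) : ℂ) * (m.choose k : ℂ) := by
          have := Nat.add_one_mul_choose_eq m k
          have h2 : (((m + 1) * m.choose k : ℕ) : ℂ) = (((m + 1).choose (k + 1) * (k + 1) : ℕ) : ℂ) := by
            exact_mod_cast this
          push_cast at h2 ⊢
          linear_combination -h2
        push_cast at e3 ⊢
        linear_combination ((k.descFactorial a : ℕ) : ℂ) * x ^ (k - a) * h (m - k) * e3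
      rw [sum_congr rfl h1, ← mul_sum, ih m, Nat.succ_descFactorial_succ]
      have e4 : m + 1 - (a + 1) = m - a := by omega
      rw [e4]
      push_cast
      ring

lemma inner_sum (y z : ℂ) (b m : ℕ) :
    ∑ k ∈ range (m + 1), (m.choose k : ℂ) * ((k.descFactorial b : ℕ) : ℂ) * y ^ (k - b) * z ^ (m - k)
      = (m.descFactorial b : ℂ) * (y + z) ^ (m - b) := by
  rw [one_dim (fun i => z ^ i) y b m, add_pow]
  congr 1
  apply sum_congr rfl
  intro k _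
  ring

/-- multinomial form -/
lemma coeff_eq (n k j : ℕ) (hk : k ≤ n) (hj : j ≤ n - k) :
    ((n.factorial : ℂ) / ((k.factorial : ℂ) * (j.factorial : ℂ) * ((n - k - j).factorial : ℂ)))
      = (n.choose k : ℂ) * ((n - k).choose j : ℂ) := by
  have h1 := Nat.choose_mul_factorial_mul_factorial hk
  have h2 := Nat.choose_mul_factorial_mul_factorial hj
  have h3 : (n.choose k : ℂ) * ((n - k).choose j : ℂ) *
      ((k.factorial : ℂ) * (j.factorial : ℂ) * ((n - k - j).factorial : ℂ)) = (n.factorial : ℂ) := by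
    have : n.choose k * (n - k).choose j * (k.factorial * j.factorial * (n - k - j).factorial)
        = n.factorial := by
      calc n.choose k * (n - k).choose j * (k.factorial * j.factorial * (n - k - j).factorial)
          = n.choose k * k.factorial * ((n - k).choose j * j.factorial * (n - k - j).factorial) := by ring
        _ = n.factorial := by rw [h2, h1]
    exact_mod_cast this
  have hne : ((k.factorial : ℂ) * (j.factorial : ℂ) * ((n - k - j).factorial : ℂ)) ≠ 0 := by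
    have := Nat.factorial_ne_zero
    simp [this]
  rw [div_eq_iff hne, h3]

lemma desc_pow (x : ℂ) (k a : ℕ) : ((k.descFactorial a : ℕ) : ℂ) * x ^ k
    = x ^ a * (((k.descFactorial a : ℕ) : ℂ) * x ^ (k - a)) := by
  by_cases h : a ≤ k
  · have : x ^ k = x ^ a * x ^ (k - a) := by rw [← pow_add]; congr 1; omega
    rw [this]; ring
  · have : k.descFactorial a = 0 := Nat.descFactorial_eq_zero_iff_lt.mpr (by omega)
    rw [this]; simp

lemma two_dim (n a b : ℕ) (x y : ℂ) :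
    ∑ k ∈ range (n + 1), ∑ j ∈ range (n + 1 - k),
    ((n.factorial : ℂ) / ((k.factorial : ℂ) * (j.factorial : ℂ) * ((n - k - j).factorial : ℂ)))
      * x ^ k * y ^ j * (1 - x - y) ^ (n - k - j) * (((k.descFactorial a : ℕ) : ℂ)
        * ((j.descFactorial b : ℕ) : ℂ)) = ((n.descFactorial (a + b) : ℕ) : ℂ) * x ^ a * y ^ b := by
  have h1 : ∀ k ∈ range (n + 1), ∑ j ∈ range (n + 1 - k),
    ((n.factorial : ℂ) / ((k.factorial : ℂ) * (j.factorial : ℂ) * ((n - k - j).factorial : ℂ)))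
      * x ^ k * y ^ j * (1 - x - y) ^ (n - k - j) * (((k.descFactorial a : ℕ) : ℂ)
        * ((j.descFactorial b : ℕ) : ℂ))
      = x ^ a * y ^ b * ((n.choose k : ℂ) * ((k.descFactorial a : ℕ) : ℂ) * x ^ (k - a) *
        (((n - k).descFactorial b : ℕ) : ℂ) * (1 - x) ^ (n - k - b)) := by
    intro k hk
    have hk' : k ≤ n := by simpa [Nat.lt_succ_iff] using hk
    have e : n + 1 - k = (n - k) + 1 := by omega
    rw [e]
    have h2 := inner_sum y (1 - x - y) b (n - k)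
    have h3 : (n.choose k : ℂ) * (((k.descFactorial a : ℕ) : ℂ) * x ^ k) * (y ^ b *
        ((((n - k).descFactorial b : ℕ) : ℂ) * (y + (1 - x - y)) ^ (n - k - b)))
        = x ^ a * y ^ b * ((n.choose k : ℂ) * ((k.descFactorial a : ℕ) : ℂ) * x ^ (k - a) *
        (((n - k).descFactorial b : ℕ) : ℂ) * (1 - x) ^ (n - k - b)) := by
      rw [desc_pow x k a]
      have : y + (1 - x - y) = 1 - x := by ring
      rw [this]; ring
    rw [← h3, ← h2, mul_sum, mul_sum]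
    apply sum_congr rfl
    intro j hj
    have hj' : j ≤ n - k := by simpa [Nat.lt_succ_iff] using hj
    rw [coeff_eq n k j hk' hj']
    have := desc_pow y j b
    linear_combination (n.choose k : ℂ) * ((n - k).choose j : ℂ) * x ^ k * (1 - x - y) ^ (n - k - j)
      * ((k.descFactorial a : ℕ) : ℂ) * this
  rw [sum_congr rfl h1, ← mul_sum]
  have h4 := one_dim (fun i => (((i).descFactorial b : ℕ) : ℂ) * (1 - x) ^ (i - b)) x a n
  have h5 : ∑ k ∈ range (n + 1), ((n.choose k : ℂ) * ((k.descFactorial a : ℕ) : ℂ) * x ^ (k - a) *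
        (((n - k).descFactorial b : ℕ) : ℂ) * (1 - x) ^ (n - k - b))
      = ((n.descFactorial a : ℕ) : ℂ) * (((n - a).descFactorial b : ℕ) : ℂ) := by
    calc _ = _ := by
          apply sum_congr rfl
          intro k _
          exact (mul_assoc _ _ _)
      _ = _ := h4
      _ = _ := by
        congr 1
        have h6 := inner_sum (1 - x) x b (n - a)
        rw [← sum_range_reflect] at h6
        have h7 : (1 - x + x) = 1 := by ring
        rw [h7, one_pow, mul_one] at h6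
        rw [← h6]
        apply sum_congr rfl
        intro k hk
        have hk' : k ≤ n - a := by simpa [Nat.lt_succ_iff] using hk
        have e1 : n - a + 1 - 1 - k = n - a - k := by omega
        have e2 : n - a - (n - a - k) = k := by omega
        rw [e1, e2, Nat.choose_symm hk']
        ring
  rw [h5]
  have h8 : ((n.descFactorial a : ℕ) : ℂ) * (((n - a).descFactorial b : ℕ) : ℂ)
      = ((n.descFactorial (a + b) : ℕ) : ℂ) := by
    have := Nat.descFactorial_mul_descFactorial (n := n) (k := a) (m := a + b) (by omega)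
    rw [← this]
    have e : a + b - a = b := by omega
    rw [e]; push_cast; ring
  rw [h8]; ring

lemma pow_stirling (p : ℕ) : ∀ k : ℕ, (p : ℂ) ^ k
    = ∑ a ∈ range (k + 1), ((k.stirlingSecond a : ℕ) : ℂ) * ((p.descFactorial a : ℕ) : ℂ) := by
  have hd : ∀ a : ℕ, ((p.descFactorial (a + 1) : ℕ) : ℂ) = ((p : ℂ) - a) * ((p.descFactorial a : ℕ) : ℂ) := by
    intro a
    rw [Nat.descFactorial_succ]
    by_cases h : a ≤ p
    · push_cast [Nat.cast_sub h]; ring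
    · have : p.descFactorial a = 0 := Nat.descFactorial_eq_zero_iff_lt.mpr (by omega)
      rw [this]; simp
  intro k
  induction k with
  | zero => simp
  | succ k ih =>
    rw [pow_succ, ih, sum_range_succ' _ (k + 1)]
    simp only [Nat.stirlingSecond_succ_zero, Nat.cast_zero, zero_mul, add_zero]
    have h1 : ∀ a ∈ range (k + 1), (((k + 1).stirlingSecond (a + 1) : ℕ) : ℂ)
        * ((p.descFactorial (a + 1) : ℕ) : ℂ)
        = (((k.stirlingSecond (a + 1) : ℕ) : ℂ) * ((a + 1 : ℕ) : ℂ) * ((p.descFactorial (a + 1) : ℕ) : ℂ)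
          - ((k.stirlingSecond a : ℕ) : ℂ) * (a : ℂ) * ((p.descFactorial a : ℕ) : ℂ))
          + (p : ℂ) * (((k.stirlingSecond a : ℕ) : ℂ) * ((p.descFactorial a : ℕ) : ℂ)) := by
      intro a _
      rw [Nat.stirlingSecond_succ_succ, hd a]
      push_cast
      ring
    rw [sum_congr rfl h1, sum_add_distrib, sum_range_sub
      (fun a => ((k.stirlingSecond a : ℕ) : ℂ) * (a : ℂ) * ((p.descFactorial a : ℕ) : ℂ)), ← mul_sum]
    rw [Nat.stirlingSecond_eq_zero_of_lt (Nat.lt_succ_self k)]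
    simp
    ring

/-- Bernstein polynomial of a monomial -/
lemma bern_mono (n k j : ℕ) (x y : ℂ) :
    bern n (fun u v => u ^ k * v ^ j) x y
      = ∑ a ∈ range (k + 1), ∑ b ∈ range (j + 1),
        ((((k.stirlingSecond a : ℕ) : ℂ) * ((j.stirlingSecond b : ℕ) : ℂ)
          * ((n.descFactorial (a + b) : ℕ) : ℂ)) / ((n : ℂ) ^ k * (n : ℂ) ^ j)) * (x ^ a * y ^ b) := by
  have h1 : ∀ a ∈ range (k + 1), ∀ b ∈ range (j + 1),
        ((((k.stirlingSecond a : ℕ) : ℂ) * ((j.stirlingSecond b : ℕ) : ℂ)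
          * ((n.descFactorial (a + b) : ℕ) : ℂ)) / ((n : ℂ) ^ k * (n : ℂ) ^ j)) * (x ^ a * y ^ b)
        = ∑ p ∈ range (n + 1), ∑ q ∈ range (n + 1 - p),
    ((n.factorial : ℂ) / ((p.factorial : ℂ) * (q.factorial : ℂ) * ((n - p - q).factorial : ℂ)))
      * x ^ p * y ^ q * (1 - x - y) ^ (n - p - q) * ((((k.stirlingSecond a : ℕ) : ℂ) * ((j.stirlingSecond b : ℕ) : ℂ) / ((n : ℂ) ^ k * (n : ℂ) ^ j))
         * (((p.descFactorial a : ℕ) : ℂ)
        * ((q.descFactorial b : ℕ) : ℂ))) := by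
    intro a _ b _
    have := two_dim n a b x y
    calc _ = (((k.stirlingSecond a : ℕ) : ℂ) * ((j.stirlingSecond b : ℕ) : ℂ) / ((n : ℂ) ^ k * (n : ℂ) ^ j))
        * (((n.descFactorial (a + b) : ℕ) : ℂ) * x ^ a * y ^ b) := by ring
      _ = _ := by
        rw [← this, mul_sum]
        apply sum_congr rfl; intro p _
        rw [mul_sum]
        apply sum_congr rfl; intro q _
        ring
  rw [sum_congr rfl (fun a ha => sum_congr rfl (h1 a ha))]
  unfold bern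
  have h2 : ∀ p ∈ range (n + 1), ∑ q ∈ range (n + 1 - p),
      ((n.factorial : ℂ) / ((p.factorial : ℂ) * (q.factorial : ℂ) * ((n - p - q).factorial : ℂ)))
      * x ^ p * y ^ q * (1 - x - y) ^ (n - p - q) * (((p : ℂ) / n) ^ k * ((q : ℂ) / n) ^ j)
      = ∑ a ∈ range (k + 1), ∑ b ∈ range (j + 1), ∑ q ∈ range (n + 1 - p),
    ((n.factorial : ℂ) / ((p.factorial : ℂ) * (q.factorial : ℂ) * ((n - p - q).factorial : ℂ)))
      * x ^ p * y ^ q * (1 - x - y) ^ (n - p - q) * ((((k.stirlingSecond a : ℕ) : ℂ) * ((j.stirlingSecond b : ℕ) : ℂ) / ((n : ℂ) ^ k * (n : ℂ) ^ j))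
         * (((p.descFactorial a : ℕ) : ℂ)
        * ((q.descFactorial b : ℕ) : ℂ))) := by
    intro p _
    have h3 : ∀ a ∈ range (k + 1), ∑ b ∈ range (j + 1), ∑ q ∈ range (n + 1 - p),
    ((n.factorial : ℂ) / ((p.factorial : ℂ) * (q.factorial : ℂ) * ((n - p - q).factorial : ℂ)))
      * x ^ p * y ^ q * (1 - x - y) ^ (n - p - q) * ((((k.stirlingSecond a : ℕ) : ℂ) * ((j.stirlingSecond b : ℕ) : ℂ) / ((n : ℂ) ^ k * (n : ℂ) ^ j))
         * (((p.descFactorial a : ℕ) : ℂ)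
        * ((q.descFactorial b : ℕ) : ℂ)))
      = ∑ q ∈ range (n + 1 - p), ∑ b ∈ range (j + 1),
    ((n.factorial : ℂ) / ((p.factorial : ℂ) * (q.factorial : ℂ) * ((n - p - q).factorial : ℂ)))
      * x ^ p * y ^ q * (1 - x - y) ^ (n - p - q) * ((((k.stirlingSecond a : ℕ) : ℂ) * ((j.stirlingSecond b : ℕ) : ℂ) / ((n : ℂ) ^ k * (n : ℂ) ^ j))
         * (((p.descFactorial a : ℕ) : ℂ)
        * ((q.descFactorial b : ℕ) : ℂ))) := by
      intro a _; exact sum_comm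
    rw [sum_congr rfl h3, sum_comm]
    apply sum_congr rfl
    intro q _
    rw [div_pow, div_pow, pow_stirling p k, pow_stirling q j, div_mul_div_comm, sum_mul_sum, sum_div,
      mul_sum]
    apply sum_congr rfl; intro a _
    rw [sum_div, mul_sum]
    apply sum_congr rfl; intro b _
    ring
  rw [sum_congr rfl h2, sum_comm]
  apply sum_congr rfl; intro a _
  rw [sum_comm]

/-! ### real estimates -/

/-- `(n)_m / n^m` -/
noncomputable def D (n m : ℕ) : ℝ := (n.descFactorial m : ℝ) / (n : ℝ) ^ m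

lemma D_nonneg (n m : ℕ) : 0 ≤ D n m := by unfold D; positivity

lemma D_le_one (n m : ℕ) (hn : 1 ≤ n) : D n m ≤ 1 := by
  unfold D
  rw [div_le_one (by positivity)]
  exact_mod_cast Nat.descFactorial_le_pow n m

lemma D_succ (n m : ℕ) (hn : 1 ≤ n) : D n (m + 1) = D n m * (1 - (m : ℝ) / n) := by
  unfold D
  have hn' : (n : ℝ) ≠ 0 := by positivity
  have hd : ((n.descFactorial (m + 1) : ℕ) : ℝ) = ((n : ℝ) - m) * ((n.descFactorial m : ℕ) : ℝ) := by
    rw [Nat.descFactorial_succ]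
    by_cases h : m ≤ n
    · push_cast [Nat.cast_sub h]; ring
    · have : n.descFactorial m = 0 := Nat.descFactorial_eq_zero_iff_lt.mpr (by omega)
      rw [this]; simp
  rw [hd, pow_succ]
  field_simp

lemma D_lower (n : ℕ) (hn : 1 ≤ n) : ∀ m : ℕ, 1 - (m : ℝ) * (m - 1) / 2 / n ≤ D n m := by
  intro m
  induction m with
  | zero => simp [D]
  | succ m ih =>
    rw [D_succ n m hn]
    have h1 := D_le_one n m hn
    have hn' : (0 : ℝ) < n := by positivity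
    have h2 : (m : ℝ) / n * D n m ≤ (m : ℝ) / n := by
      have : (0 : ℝ) ≤ (m : ℝ) / n := by positivity
      nlinarith
    have e : (1 : ℝ) - ((m + 1 : ℕ) : ℝ) * (((m + 1 : ℕ) : ℝ) - 1) / 2 / n
      = 1 - (m : ℝ) * (m - 1) / 2 / n - (m : ℝ) / n := by
      push_cast; field_simp; ring
    rw [e]; linarith

lemma D_upper (n : ℕ) (hn : 1 ≤ n) : ∀ m : ℕ, D n m ≤ 1 - (m : ℝ) * (m - 1) / 2 / n + (m : ℝ) ^ 4 / (n : ℝ) ^ 2 := by
  intro m
  induction m with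
  | zero => simp [D]
  | succ m ih =>
    rw [D_succ n m hn]
    have h1 := D_lower n hn m
    have hn' : (0 : ℝ) < n := by positivity
    have h2 : (m : ℝ) / n * (1 - (m : ℝ) * (m - 1) / 2 / n) ≤ (m : ℝ) / n * D n m := by
      have : (0 : ℝ) ≤ (m : ℝ) / n := by positivity
      exact mul_le_mul_of_nonneg_left h1 this
    have h3 : (m : ℝ) ^ 4 / (n : ℝ) ^ 2 + (m : ℝ) ^ 2 * (m - 1) / 2 / (n : ℝ) ^ 2
        ≤ ((m + 1 : ℕ) : ℝ) ^ 4 / (n : ℝ) ^ 2 := by
      rw [← add_div]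
      apply div_le_div_of_nonneg_right _ (by positivity)
      push_cast
      have : (0 : ℝ) ≤ m := by positivity
      nlinarith [mul_nonneg this this, mul_nonneg (mul_nonneg this this) this]
    have e : (1 : ℝ) - ((m + 1 : ℕ) : ℝ) * (((m + 1 : ℕ) : ℝ) - 1) / 2 / n
      = 1 - (m : ℝ) * (m - 1) / 2 / n - (m : ℝ) / n := by
      push_cast; field_simp; ring
    have e2 : (m : ℝ) / n * (1 - (m : ℝ) * (m - 1) / 2 / n) = (m : ℝ) / n - (m : ℝ) ^ 2 * (m - 1) / 2 / (n : ℝ) ^ 2 := by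
      field_simp
    rw [e]; linarith

/-- the weights `S(k,a) (n)_a / n^k` -/
noncomputable def P (n k a : ℕ) : ℝ := ((k.stirlingSecond a : ℕ) : ℝ) * (n.descFactorial a : ℝ) / (n : ℝ) ^ k

lemma P_nonneg (n k a : ℕ) : 0 ≤ P n k a := by unfold P; positivity

lemma P_sum (n k : ℕ) (hn : 1 ≤ n) : ∑ a ∈ range (k + 1), P n k a = 1 := by
  have h := pow_stirling n k
  have h' : (n : ℝ) ^ k = ∑ a ∈ range (k + 1), ((k.stirlingSecond a : ℕ) : ℝ) * ((n.descFactorial a : ℕ) : ℝ) := by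
    exact_mod_cast h
  unfold P
  rw [← sum_div, ← h']
  have : (n : ℝ) ^ k ≠ 0 := by positivity
  exact div_self this

noncomputable def i0 (k a : ℕ) : ℝ := if a = k then 1 else 0
noncomputable def i1 (k a : ℕ) : ℝ := if a + 1 = k then 1 else 0
noncomputable def i2 (k a : ℕ) : ℝ := if a + 2 ≤ k then 1 else 0

lemma i0_nonneg (k a : ℕ) : 0 ≤ i0 k a := by unfold i0; split_ifs <;> norm_num
lemma i1_nonneg (k a : ℕ) : 0 ≤ i1 k a := by unfold i1; split_ifs <;> norm_num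
lemma i2_nonneg (k a : ℕ) : 0 ≤ i2 k a := by unfold i2; split_ifs <;> norm_num

lemma i0_sum (k : ℕ) (g : ℕ → ℝ) : ∑ a ∈ range (k + 1), i0 k a * g a = g k := by
  unfold i0
  rw [sum_eq_single k]
  · simp
  · intro b _ hb; simp [hb]
  · intro h; simp at h

lemma i1_sum_succ (k : ℕ) (g : ℕ → ℝ) : ∑ a ∈ range (k + 1 + 1), i1 (k + 1) a * g a = g k := by
  unfold i1
  rw [sum_eq_single k]
  · simp
  · intro b _ hb
    simp [hb]
  · intro h; simp at h

lemma i0_sum' (k : ℕ) (g : ℕ → ℂ) : ∑ a ∈ range (k + 1), ((i0 k a : ℝ) : ℂ) * g a = g k := by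
  unfold i0
  rw [sum_eq_single k]
  · simp
  · intro b _ hb; simp [hb]
  · intro h; simp at h

lemma i1_sum' (k : ℕ) (g : ℕ → ℂ) : ((k : ℂ) * (k - 1) / 2) * ∑ a ∈ range (k + 1), ((i1 k a : ℝ) : ℂ) * g a
    = ((k : ℂ) * (k - 1) / 2) * g (k - 1) := by
  cases k with
  | zero => simp
  | succ k =>
    congr 1
    unfold i1
    rw [sum_eq_single k]
    · simp
    · intro b _ hb
      simp [hb]
    · intro h; simp at h

lemma R_bound (n k : ℕ) (hn : 1 ≤ n) :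
    ∑ a ∈ range (k + 1), P n k a * i1 k a ≤ (k : ℝ) ^ 2 / n := by
  cases k with
  | zero => simp [i1]
  | succ k =>
    have h1 : ∑ a ∈ range (k + 1 + 1), P n (k + 1) a * i1 (k + 1) a = P n (k + 1) k := by
      rw [← i1_sum_succ k (fun a => P n (k + 1) a)]
      exact sum_congr rfl (fun a _ => mul_comm _ _)
    rw [h1]
    have h2 : P n (k + 1) k = (((k : ℝ) + 1) * k / 2) / n * D n k := by
      unfold P D
      rw [Nat.stirlingSecond_succ_self_left, Nat.cast_choose_two, pow_succ]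
      push_cast
      have hn' : (n : ℝ) ≠ 0 := by positivity
      field_simp
      ring
    rw [h2]
    have h3 := D_le_one n k hn
    have h4 : (0 : ℝ) ≤ (((k : ℝ) + 1) * k / 2) / n := by positivity
    calc _ ≤ (((k : ℝ) + 1) * k / 2) / n * 1 := mul_le_mul_of_nonneg_left h3 h4
      _ ≤ _ := by
        rw [mul_one]
        apply div_le_div_of_nonneg_right _ (by positivity)
        push_cast
        have : (0 : ℝ) ≤ k := by positivity
        nlinarith [mul_nonneg this this]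

lemma Q_bound (n k : ℕ) (hn : 1 ≤ n) :
    ∑ a ∈ range (k + 1), P n k a * i2 k a ≤ (k : ℝ) ^ 4 / (n : ℝ) ^ 2 := by
  cases k with
  | zero => simp [i2]
  | succ k =>
    have hn' : (n : ℝ) ≠ 0 := by positivity
    have hn0 : (0 : ℝ) < n := by positivity
    have h1 : ∑ a ∈ range (k + 1 + 1), P n (k + 1) a * i1 (k + 1) a = P n (k + 1) k := by
      rw [← i1_sum_succ k (fun a => P n (k + 1) a)]
      exact sum_congr rfl (fun a _ => mul_comm _ _)
    have h0 : ∑ a ∈ range (k + 1 + 1), P n (k + 1) a * i0 (k + 1) a = P n (k + 1) (k + 1) := by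
      rw [← i0_sum (k + 1) (fun a => P n (k + 1) a)]
      exact sum_congr rfl (fun a _ => mul_comm _ _)
    have h2 : P n (k + 1) k = (((k : ℝ) + 1) * k / 2) / n * D n k := by
      unfold P D
      rw [Nat.stirlingSecond_succ_self_left, Nat.cast_choose_two, pow_succ]
      push_cast
      field_simp
      ring
    have h3 : P n (k + 1) (k + 1) = D n (k + 1) := by
      unfold P D
      rw [Nat.stirlingSecond_self]; simp
    have h4 : ∑ a ∈ range (k + 1 + 1), P n (k + 1) a * i2 (k + 1) a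
        = 1 - P n (k + 1) k - P n (k + 1) (k + 1) := by
      rw [← h1, ← h0, ← P_sum n (k + 1) hn, ← sum_sub_distrib, ← sum_sub_distrib]
      apply sum_congr rfl
      intro a ha
      have ha' : a ≤ k + 1 := by simpa [Nat.lt_succ_iff] using ha
      unfold i0 i1 i2
      rcases Nat.lt_or_ge a k with h | h
      · have e1 : a + 2 ≤ k + 1 := by omega
        have e2 : ¬ (a = k) := by omega
        have e3 : ¬ (a = k + 1) := by omega
        simp [e1, e2, e3]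
      · rcases Nat.eq_or_lt_of_le h with h' | h'
        · subst h'; simp
        · have : a = k + 1 := by omega
          subst this; simp
    rw [h4, h2, h3]
    have h5 := D_lower n hn k
    have h6 := D_lower n hn (k + 1)
    have h7 : (0 : ℝ) ≤ (((k : ℝ) + 1) * k / 2) / n := by positivity
    have h8 : (((k : ℝ) + 1) * k / 2) / n * (1 - (k : ℝ) * (k - 1) / 2 / n) ≤ (((k : ℝ) + 1) * k / 2) / n * D n k :=
      mul_le_mul_of_nonneg_left h5 h7
    have h9 : (((k : ℝ) + 1) * k / 2) / n * (1 - (k : ℝ) * (k - 1) / 2 / n)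
        = (((k : ℝ) + 1) * k / 2) / n - (((k : ℝ) + 1) * k / 2) * ((k : ℝ) * (k - 1) / 2) / (n : ℝ) ^ 2 := by
      field_simp
    have h10 : (((k + 1 : ℕ) : ℝ)) * ((((k + 1 : ℕ) : ℝ)) - 1) / 2 / n = (((k : ℝ) + 1) * k / 2) / n := by
      push_cast; ring
    rw [h10] at h6
    have h11 : (((k : ℝ) + 1) * k / 2) * ((k : ℝ) * (k - 1) / 2) / (n : ℝ) ^ 2 ≤ (((k + 1 : ℕ) : ℝ)) ^ 4 / (n : ℝ) ^ 2 := by
      apply div_le_div_of_nonneg_right _ (by positivity)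
      push_cast
      have : (0 : ℝ) ≤ k := by positivity
      nlinarith [mul_nonneg this this, mul_nonneg (mul_nonneg this this) this,
        mul_nonneg (mul_nonneg this this) (mul_nonneg this this)]
    linarith

/-- the weights of the Bernstein polynomial of a monomial -/
noncomputable def u (n k j a b : ℕ) : ℝ :=
  (((k.stirlingSecond a : ℕ) : ℝ) * ((j.stirlingSecond b : ℕ) : ℝ)
          * ((n.descFactorial (a + b) : ℕ) : ℝ)) / ((n : ℝ) ^ k * (n : ℝ) ^ j)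

lemma u_nonneg (n k j a b : ℕ) : 0 ≤ u n k j a b := by unfold u; positivity

lemma desc_mono (m n b : ℕ) (h : m ≤ n) : m.descFactorial b ≤ n.descFactorial b :=
  Nat.descFactorial_le b h

lemma u_le (n k j a b : ℕ) : u n k j a b ≤ P n k a * P n j b := by
  unfold u P
  rw [div_mul_div_comm]
  apply div_le_div_of_nonneg_right _ (by positivity)
  have h1 : (n.descFactorial (a + b) : ℕ) ≤ n.descFactorial a * n.descFactorial b := by
    have := Nat.descFactorial_mul_descFactorial (n := n) (k := a) (m := a + b) (by omega)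
    rw [← this]
    have e : a + b - a = b := by omega
    rw [e, mul_comm]
    exact Nat.mul_le_mul_left _ (desc_mono _ _ _ (Nat.sub_le _ _))
  have h2 : ((n.descFactorial (a + b) : ℕ) : ℝ) ≤ (n.descFactorial a : ℝ) * (n.descFactorial b : ℝ) := by
    exact_mod_cast h1
  calc _ ≤ ((k.stirlingSecond a : ℕ) : ℝ) * ((j.stirlingSecond b : ℕ) : ℝ)
          * ((n.descFactorial a : ℝ) * (n.descFactorial b : ℝ)) := mul_le_mul_of_nonneg_left h2 (by positivity)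
    _ = _ := by ring

/-- the approximating weights -/
noncomputable def mainw (n k j a b : ℕ) : ℝ :=
  i0 k a * i0 j b * (1 - ((k + j : ℕ) : ℝ) * (((k + j : ℕ) : ℝ) - 1) / 2 / n)
    + i1 k a * i0 j b * ((k : ℝ) * (k - 1) / 2 / n) + i0 k a * i1 j b * ((j : ℝ) * (j - 1) / 2 / n)

lemma diff_bound (n k j a b : ℕ) (hn : 1 ≤ n) (ha : a ≤ k) (hb : b ≤ j) :
    |u n k j a b - mainw n k j a b| ≤ (i0 k a * i0 j b + i1 k a * i0 j b + i0 k a * i1 j b) *
      (((k + j : ℕ) : ℝ) ^ 4 / (n : ℝ) ^ 2)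
      + (P n k a * i2 k a) * P n j b + P n k a * (P n j b * i2 j b)
      + (P n k a * i1 k a) * (P n j b * i1 j b) := by
  have hn' : (n : ℝ) ≠ 0 := by positivity
  have hn0 : (0 : ℝ) < n := by positivity
  have hu := u_le n k j a b
  have hu0 := u_nonneg n k j a b
  have hPk := P_nonneg n k a
  have hPj := P_nonneg n j b
  have hPP : 0 ≤ P n k a * P n j b := mul_nonneg hPk hPj
  -- cases for a
  rcases Nat.lt_or_ge (a + 1) k with ha1 | ha1
  · -- a + 2 ≤ k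
    have e0 : i0 k a = 0 := by unfold i0; rw [if_neg (by omega)]
    have e1 : i1 k a = 0 := by unfold i1; rw [if_neg (by omega)]
    have e2 : i2 k a = 1 := by unfold i2; rw [if_pos (by omega)]
    have hm : mainw n k j a b = 0 := by unfold mainw; rw [e0, e1]; ring
    rw [hm, sub_zero, abs_of_nonneg hu0, e0, e1, e2]
    have := mul_nonneg hPP (i2_nonneg j b)
    nlinarith
  rcases Nat.lt_or_ge (b + 1) j with hb1 | hb1
  · have e0 : i0 j b = 0 := by unfold i0; rw [if_neg (by omega)]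
    have e1 : i1 j b = 0 := by unfold i1; rw [if_neg (by omega)]
    have e2 : i2 j b = 1 := by unfold i2; rw [if_pos (by omega)]
    have hm : mainw n k j a b = 0 := by unfold mainw; rw [e0, e1]; ring
    rw [hm, sub_zero, abs_of_nonneg hu0, e0, e1, e2]
    have := mul_nonneg hPP (i2_nonneg k a)
    nlinarith
  have e2a : i2 k a = 0 := by unfold i2; rw [if_neg (by omega)]
  have e2b : i2 j b = 0 := by unfold i2; rw [if_neg (by omega)]
  rcases Nat.lt_or_ge a k with ha2 | ha2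
  · have hak : k = a + 1 := by omega
    have e0 : i0 k a = 0 := by unfold i0; rw [if_neg (by omega)]
    have e1 : i1 k a = 1 := by unfold i1; rw [if_pos (by omega)]
    rcases Nat.lt_or_ge b j with hb2 | hb2
    · have f0 : i0 j b = 0 := by unfold i0; rw [if_neg (by omega)]
      have f1 : i1 j b = 1 := by unfold i1; rw [if_pos (by omega)]
      have hm : mainw n k j a b = 0 := by unfold mainw; rw [e0, e1, f0, f1]; ring
      rw [hm, sub_zero, abs_of_nonneg hu0, e0, e1, f0, f1, e2a, e2b]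
      nlinarith
    · have hbj : b = j := by omega
      subst hbj; subst hak
      have f0 : i0 b b = 1 := by unfold i0; simp
      have f1 : i1 b b = 0 := by unfold i1; simp
      have hm : mainw n (a + 1) b a b = (((a + 1 : ℕ) : ℝ) * (((a + 1 : ℕ) : ℝ) - 1) / 2 / n) := by
        unfold mainw; rw [e0, e1, f0, f1]; ring
      rw [hm, e0, e1, f0, f1, e2a, e2b]
      have hu' : u n (a + 1) b a b = (((a + 1 : ℕ) : ℝ) * (((a + 1 : ℕ) : ℝ) - 1) / 2 / n) * D n (a + b) := by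
        unfold u D
        rw [Nat.stirlingSecond_succ_self_left, Nat.cast_choose_two, Nat.stirlingSecond_self, pow_succ, pow_add]
        push_cast
        field_simp
      rw [hu']
      have h1 := D_lower n hn (a + b)
      have h2 := D_le_one n (a + b) hn
      have h3 : (0 : ℝ) ≤ ((a + 1 : ℕ) : ℝ) * (((a + 1 : ℕ) : ℝ) - 1) / 2 / n := by
        push_cast
        have : (0 : ℝ) ≤ ((a : ℝ) + 1) * ((a : ℝ) + 1 - 1) := by
          have : (0 : ℝ) ≤ a := by positivity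
          nlinarith
        positivity
      have h4 : |(((a + 1 : ℕ) : ℝ) * (((a + 1 : ℕ) : ℝ) - 1) / 2 / n) * D n (a + b) - ((a + 1 : ℕ) : ℝ) * (((a + 1 : ℕ) : ℝ) - 1) / 2 / n|
          = ((a + 1 : ℕ) : ℝ) * (((a + 1 : ℕ) : ℝ) - 1) / 2 / n * (1 - D n (a + b)) := by
        rw [abs_sub_comm, abs_of_nonneg (by nlinarith)]; ring
      rw [h4]
      have h5 : ((a + 1 : ℕ) : ℝ) * (((a + 1 : ℕ) : ℝ) - 1) / 2 / n * (1 - D n (a + b))
        ≤ ((a + 1 : ℕ) : ℝ) * (((a + 1 : ℕ) : ℝ) - 1) / 2 / n * (((a + b : ℕ) : ℝ) * (((a + b : ℕ) : ℝ) - 1) / 2 / n) :=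
        mul_le_mul_of_nonneg_left (by linarith) h3
      refine h5.trans ?_
      have h6 : ((a + 1 : ℕ) : ℝ) * (((a + 1 : ℕ) : ℝ) - 1) / 2 / n * (((a + b : ℕ) : ℝ) * (((a + b : ℕ) : ℝ) - 1) / 2 / n)
        = (((a + 1 : ℕ) : ℝ) * (((a + 1 : ℕ) : ℝ) - 1) / 2 * (((a + b : ℕ) : ℝ) * (((a + b : ℕ) : ℝ) - 1) / 2)) / (n : ℝ) ^ 2 := by
        field_simp
      rw [h6]
      have h7 : (((a + 1 : ℕ) : ℝ) * (((a + 1 : ℕ) : ℝ) - 1) / 2 * (((a + b : ℕ) : ℝ) * (((a + b : ℕ) : ℝ) - 1) / 2)) / (n : ℝ) ^ 2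
        ≤ (((a + 1 + b : ℕ) : ℝ)) ^ 4 / (n : ℝ) ^ 2 := by
        apply div_le_div_of_nonneg_right _ (by positivity)
        push_cast
        have ha0 : (0 : ℝ) ≤ a := by positivity
        have hb0 : (0 : ℝ) ≤ b := by positivity
        set s : ℝ := (a : ℝ) + 1 + b with hs
        have g1 : ((a : ℝ) + 1) * ((a : ℝ) + 1 - 1) / 2 ≤ s ^ 2 := by rw [hs]; nlinarith [mul_nonneg ha0 hb0]
        have g1' : 0 ≤ ((a : ℝ) + 1) * ((a : ℝ) + 1 - 1) / 2 := by nlinarith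
        have g2 : ((a : ℝ) + b) * ((a : ℝ) + b - 1) / 2 ≤ s ^ 2 := by rw [hs]; nlinarith [mul_nonneg ha0 hb0]
        have g3 : (0 : ℝ) ≤ s ^ 2 := by positivity
        calc _ ≤ ((a : ℝ) + 1) * ((a : ℝ) + 1 - 1) / 2 * s ^ 2 := mul_le_mul_of_nonneg_left g2 g1'
          _ ≤ s ^ 2 * s ^ 2 := mul_le_mul_of_nonneg_right g1 g3
          _ = s ^ 4 := by ring
      refine h7.trans (le_of_eq ?_)
      ring
  · have hak : a = k := by omega
    subst hak
    have e0 : i0 a a = 1 := by unfold i0; simp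
    have e1 : i1 a a = 0 := by unfold i1; simp
    rcases Nat.lt_or_ge b j with hb2 | hb2
    · have hbj : j = b + 1 := by omega
      subst hbj
      have f0 : i0 (b + 1) b = 0 := by unfold i0; simp
      have f1 : i1 (b + 1) b = 1 := by unfold i1; simp
      have hm : mainw n a (b + 1) a b = (((b + 1 : ℕ) : ℝ) * (((b + 1 : ℕ) : ℝ) - 1) / 2 / n) := by
        unfold mainw; rw [e0, e1, f0, f1]; ring
      rw [hm, e0, e1, f0, f1, e2a, e2b]
      have hu' : u n a (b + 1) a b = (((b + 1 : ℕ) : ℝ) * (((b + 1 : ℕ) : ℝ) - 1) / 2 / n) * D n (a + b) := by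
        unfold u D
        rw [Nat.stirlingSecond_succ_self_left, Nat.cast_choose_two, Nat.stirlingSecond_self, pow_succ, pow_add]
        push_cast
        field_simp
      rw [hu']
      have h1 := D_lower n hn (a + b)
      have h2 := D_le_one n (a + b) hn
      have h3 : (0 : ℝ) ≤ ((b + 1 : ℕ) : ℝ) * (((b + 1 : ℕ) : ℝ) - 1) / 2 / n := by
        push_cast
        have : (0 : ℝ) ≤ ((b : ℝ) + 1) * ((b : ℝ) + 1 - 1) := by
          have : (0 : ℝ) ≤ b := by positivity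
          nlinarith
        positivity
      have h4 : |(((b + 1 : ℕ) : ℝ) * (((b + 1 : ℕ) : ℝ) - 1) / 2 / n) * D n (a + b) - ((b + 1 : ℕ) : ℝ) * (((b + 1 : ℕ) : ℝ) - 1) / 2 / n|
          = ((b + 1 : ℕ) : ℝ) * (((b + 1 : ℕ) : ℝ) - 1) / 2 / n * (1 - D n (a + b)) := by
        rw [abs_sub_comm, abs_of_nonneg (by nlinarith)]; ring
      rw [h4]
      have h5 : ((b + 1 : ℕ) : ℝ) * (((b + 1 : ℕ) : ℝ) - 1) / 2 / n * (1 - D n (a + b))
        ≤ ((b + 1 : ℕ) : ℝ) * (((b + 1 : ℕ) : ℝ) - 1) / 2 / n * (((a + b : ℕ) : ℝ) * (((a + b : ℕ) : ℝ) - 1) / 2 / n) :=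
        mul_le_mul_of_nonneg_left (by linarith) h3
      refine h5.trans ?_
      have h6 : ((b + 1 : ℕ) : ℝ) * (((b + 1 : ℕ) : ℝ) - 1) / 2 / n * (((a + b : ℕ) : ℝ) * (((a + b : ℕ) : ℝ) - 1) / 2 / n)
        = (((b + 1 : ℕ) : ℝ) * (((b + 1 : ℕ) : ℝ) - 1) / 2 * (((a + b : ℕ) : ℝ) * (((a + b : ℕ) : ℝ) - 1) / 2)) / (n : ℝ) ^ 2 := by
        field_simp
      rw [h6]
      have h7 : (((b + 1 : ℕ) : ℝ) * (((b + 1 : ℕ) : ℝ) - 1) / 2 * (((a + b : ℕ) : ℝ) * (((a + b : ℕ) : ℝ) - 1) / 2)) / (n : ℝ) ^ 2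
        ≤ (((a + (b + 1) : ℕ) : ℝ)) ^ 4 / (n : ℝ) ^ 2 := by
        apply div_le_div_of_nonneg_right _ (by positivity)
        push_cast
        have ha0 : (0 : ℝ) ≤ a := by positivity
        have hb0 : (0 : ℝ) ≤ b := by positivity
        set s : ℝ := (a : ℝ) + (b + 1) with hs
        have g1 : ((b : ℝ) + 1) * ((b : ℝ) + 1 - 1) / 2 ≤ s ^ 2 := by rw [hs]; nlinarith [mul_nonneg ha0 hb0]
        have g1' : 0 ≤ ((b : ℝ) + 1) * ((b : ℝ) + 1 - 1) / 2 := by nlinarith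
        have g2 : ((a : ℝ) + b) * ((a : ℝ) + b - 1) / 2 ≤ s ^ 2 := by rw [hs]; nlinarith [mul_nonneg ha0 hb0]
        have g3 : (0 : ℝ) ≤ s ^ 2 := by positivity
        calc _ ≤ ((b : ℝ) + 1) * ((b : ℝ) + 1 - 1) / 2 * s ^ 2 := mul_le_mul_of_nonneg_left g2 g1'
          _ ≤ s ^ 2 * s ^ 2 := mul_le_mul_of_nonneg_right g1 g3
          _ = s ^ 4 := by ring
      refine h7.trans (le_of_eq ?_)
      ring
    · have hbj : b = j := by omega
      subst hbj
      have f0 : i0 b b = 1 := by unfold i0; simp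
      have f1 : i1 b b = 0 := by unfold i1; simp
      have hm : mainw n a b a b = 1 - ((a + b : ℕ) : ℝ) * (((a + b : ℕ) : ℝ) - 1) / 2 / n := by
        unfold mainw; rw [e0, e1, f0, f1]; ring
      rw [hm, e0, e1, f0, f1, e2a, e2b]
      have hu' : u n a b a b = D n (a + b) := by
        unfold u D
        rw [Nat.stirlingSecond_self, Nat.stirlingSecond_self, pow_add]
        push_cast
        ring
      rw [hu']
      have h1 := D_lower n hn (a + b)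
      have h2 := D_upper n hn (a + b)
      rw [abs_of_nonneg (by linarith)]
      linarith

lemma aux_pow1 (k : ℕ) (x : ℂ) : (k : ℂ) * (x * x ^ (k - 1)) = (k : ℂ) * x ^ k := by
  cases k with
  | zero => simp
  | succ k => simp [pow_succ]; left; ring

lemma aux_pow2 (k : ℕ) (x : ℂ) : (k : ℂ) * (k - 1) * (x * x ^ (k - 2)) = (k : ℂ) * (k - 1) * x ^ (k - 1) := by
  rcases k with _ | _ | k
  · simp
  · simp
  · simp [pow_succ]; left; ring

/-- the remainder of a monomial -/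
noncomputable def Errm (n k j : ℕ) (x y : ℂ) : ℂ :=
  bern n (fun u v => u ^ k * v ^ j) x y - x ^ k * y ^ j - 1 / (2 * n) *
    (x * (1 - x) * ((k : ℂ) * (k - 1) * x ^ (k - 2) * y ^ j)
      - 2 * x * y * (((k : ℂ) * x ^ (k - 1)) * ((j : ℂ) * y ^ (j - 1)))
      + y * (1 - y) * (x ^ k * ((j : ℂ) * (j - 1) * y ^ (j - 2))))

lemma main_sum (n k j : ℕ) (hn : 1 ≤ n) (x y : ℂ) :
    ∑ a ∈ range (k + 1), ∑ b ∈ range (j + 1), ((mainw n k j a b : ℝ) : ℂ) * (x ^ a * y ^ b)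
      = x ^ k * y ^ j + 1 / (2 * n) *
    (x * (1 - x) * ((k : ℂ) * (k - 1) * x ^ (k - 2) * y ^ j)
      - 2 * x * y * (((k : ℂ) * x ^ (k - 1)) * ((j : ℂ) * y ^ (j - 1)))
      + y * (1 - y) * (x ^ k * ((j : ℂ) * (j - 1) * y ^ (j - 2)))) := by
  have hn' : (n : ℂ) ≠ 0 := by
    have : n ≠ 0 := by omega
    exact_mod_cast this
  have h1 : ∀ a ∈ range (k + 1), ∀ b ∈ range (j + 1), ((mainw n k j a b : ℝ) : ℂ) * (x ^ a * y ^ b)
      = (((i0 k a : ℝ) : ℂ) * x ^ a) * ((((i0 j b : ℝ) : ℂ) * y ^ b) * (1 - ((k + j : ℂ)) * ((k + j : ℂ) - 1) / 2 / n))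
       + (((i1 k a : ℝ) : ℂ) * x ^ a) * ((((i0 j b : ℝ) : ℂ) * y ^ b) * ((k : ℂ) * (k - 1) / 2 / n))
       + (((i0 k a : ℝ) : ℂ) * x ^ a) * ((((i1 j b : ℝ) : ℂ) * y ^ b) * ((j : ℂ) * (j - 1) / 2 / n)) := by
    intro a _ b _
    unfold mainw
    push_cast
    ring
  rw [sum_congr rfl (fun a ha => sum_congr rfl (h1 a ha))]
  simp only [sum_add_distrib]
  rw [← sum_mul_sum, ← sum_mul_sum, ← sum_mul_sum, ← sum_mul, ← sum_mul, ← sum_mul]
  rw [i0_sum', i0_sum']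
  have h2 := i1_sum' k (fun a => x ^ a)
  have h3 := i1_sum' j (fun a => y ^ a)
  have h4 : (∑ a ∈ range (k + 1), ((i1 k a : ℝ) : ℂ) * x ^ a) * (y ^ j * ((k : ℂ) * (k - 1) / 2 / n))
      = (y ^ j / n) * (((k : ℂ) * (k - 1) / 2) * ∑ a ∈ range (k + 1), ((i1 k a : ℝ) : ℂ) * x ^ a) := by
    ring
  have h5 : x ^ k * ((∑ b ∈ range (j + 1), ((i1 j b : ℝ) : ℂ) * y ^ b) * ((j : ℂ) * (j - 1) / 2 / n))
      = (x ^ k / n) * (((j : ℂ) * (j - 1) / 2) * ∑ b ∈ range (j + 1), ((i1 j b : ℝ) : ℂ) * y ^ b) := by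
    ring
  rw [h4, h5, h2, h3]
  have p1 := aux_pow1 k x
  have p2 := aux_pow1 j y
  have p3 := aux_pow2 k x
  have p4 := aux_pow2 j y
  have q1 : x * (1 - x) * ((k : ℂ) * (k - 1) * x ^ (k - 2) * y ^ j)
      = (1 - x) * y ^ j * ((k : ℂ) * (k - 1) * (x * x ^ (k - 2))) := by ring
  have q2 : y * (1 - y) * (x ^ k * ((j : ℂ) * (j - 1) * y ^ (j - 2)))
      = (1 - y) * x ^ k * ((j : ℂ) * (j - 1) * (y * y ^ (j - 2))) := by ring
  have q3 : 2 * x * y * (((k : ℂ) * x ^ (k - 1)) * ((j : ℂ) * y ^ (j - 1)))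
      = 2 * ((k : ℂ) * (x * x ^ (k - 1))) * ((j : ℂ) * (y * y ^ (j - 1))) := by ring
  rw [q1, q2, q3, p1, p2, p3, p4]
  have q4 : (1 - x) * y ^ j * ((k : ℂ) * (k - 1) * x ^ (k - 1))
      = y ^ j * ((k : ℂ) * (k - 1) * x ^ (k - 1)) - (k - 1) * y ^ j * ((k : ℂ) * (x * x ^ (k - 1))) := by ring
  have q5 : (1 - y) * x ^ k * ((j : ℂ) * (j - 1) * y ^ (j - 1))
      = x ^ k * ((j : ℂ) * (j - 1) * y ^ (j - 1)) - (j - 1) * x ^ k * ((j : ℂ) * (y * y ^ (j - 1))) := by ring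
  rw [q4, q5, p1, p2]
  field_simp
  ring

lemma Errm_bound (n k j : ℕ) (hn : 1 ≤ n) (x y : ℂ) (ρ₁ ρ₂ : ℝ) (h1 : 1 ≤ ρ₁) (h2 : 1 ≤ ρ₂)
    (hx : ‖x‖ ≤ ρ₁) (hy : ‖y‖ ≤ ρ₂) :
    ‖Errm n k j x y‖ ≤ 6 * ((k + j : ℕ) : ℝ) ^ 4 * ρ₁ ^ k * ρ₂ ^ j / (n : ℝ) ^ 2 := by
  have hn0 : (0 : ℝ) < n := by positivity
  have e1 : Errm n k j x y = ∑ a ∈ range (k + 1), ∑ b ∈ range (j + 1),
      (((u n k j a b - mainw n k j a b : ℝ)) : ℂ) * (x ^ a * y ^ b) := by
    have hm := main_sum n k j hn x y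
    unfold Errm
    rw [bern_mono]
    have : ∀ a ∈ range (k + 1), ∀ b ∈ range (j + 1),
      (((u n k j a b - mainw n k j a b : ℝ)) : ℂ) * (x ^ a * y ^ b)
      = ((((k.stirlingSecond a : ℕ) : ℂ) * ((j.stirlingSecond b : ℕ) : ℂ)
          * ((n.descFactorial (a + b) : ℕ) : ℂ)) / ((n : ℂ) ^ k * (n : ℂ) ^ j)) * (x ^ a * y ^ b)
        - ((mainw n k j a b : ℝ) : ℂ) * (x ^ a * y ^ b) := by
      intro a _ b _
      unfold u
      push_cast
      ring
    rw [sum_congr rfl (fun a ha => sum_congr rfl (this a ha))]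
    simp only [sum_sub_distrib]
    rw [hm]
    ring
  rw [e1]
  have hb : ‖∑ a ∈ range (k + 1), ∑ b ∈ range (j + 1),
      (((u n k j a b - mainw n k j a b : ℝ)) : ℂ) * (x ^ a * y ^ b)‖
      ≤ ∑ a ∈ range (k + 1), ∑ b ∈ range (j + 1), |u n k j a b - mainw n k j a b| * (ρ₁ ^ k * ρ₂ ^ j) := by
    refine (norm_sum_le _ _).trans (sum_le_sum fun a ha => (norm_sum_le _ _).trans (sum_le_sum fun b hb => ?_))
    rw [norm_mul, Complex.norm_real, Real.norm_eq_abs, norm_mul, norm_pow, norm_pow]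
    apply mul_le_mul_of_nonneg_left _ (abs_nonneg _)
    have ha' : a ≤ k := by simpa [Nat.lt_succ_iff] using ha
    have hb' : b ≤ j := by simpa [Nat.lt_succ_iff] using hb
    have g1 : ‖x‖ ^ a ≤ ρ₁ ^ k := (pow_le_pow_left₀ (norm_nonneg _) hx a).trans (pow_le_pow_right₀ h1 ha')
    have g2 : ‖y‖ ^ b ≤ ρ₂ ^ j := (pow_le_pow_left₀ (norm_nonneg _) hy b).trans (pow_le_pow_right₀ h2 hb')
    exact mul_le_mul g1 g2 (by positivity) (by positivity)
  refine hb.trans ?_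
  have hS : ∑ a ∈ range (k + 1), ∑ b ∈ range (j + 1), |u n k j a b - mainw n k j a b|
      ≤ 6 * ((k + j : ℕ) : ℝ) ^ 4 / (n : ℝ) ^ 2 := by
    have hle : ∑ a ∈ range (k + 1), ∑ b ∈ range (j + 1), |u n k j a b - mainw n k j a b|
      ≤ ∑ a ∈ range (k + 1), ∑ b ∈ range (j + 1),
        ((i0 k a * i0 j b + i1 k a * i0 j b + i0 k a * i1 j b) *
      (((k + j : ℕ) : ℝ) ^ 4 / (n : ℝ) ^ 2)
      + (P n k a * i2 k a) * P n j b + P n k a * (P n j b * i2 j b)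
      + (P n k a * i1 k a) * (P n j b * i1 j b)) := by
      apply sum_le_sum; intro a ha
      apply sum_le_sum; intro b hb
      have ha' : a ≤ k := by simpa [Nat.lt_succ_iff] using ha
      have hb' : b ≤ j := by simpa [Nat.lt_succ_iff] using hb
      exact diff_bound n k j a b hn ha' hb'
    refine hle.trans ?_
    set M : ℝ := ((k + j : ℕ) : ℝ) ^ 4 / (n : ℝ) ^ 2 with hM
    have hM0 : 0 ≤ M := by positivity
    have s0 : ∀ k, ∑ a ∈ range (k + 1), i0 k a = 1 := by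
      intro k
      have := i0_sum k (fun _ => 1)
      simpa using this
    have s1 : ∀ k, ∑ a ∈ range (k + 1), i1 k a ≤ 1 := by
      intro k
      cases k with
      | zero => simp [i1]
      | succ k =>
        have := i1_sum_succ k (fun _ => 1)
        simp only [mul_one] at this
        rw [this]
    have s1' : ∀ k, 0 ≤ ∑ a ∈ range (k + 1), i1 k a := fun k => sum_nonneg fun a _ => i1_nonneg k a
    have heq : ∑ a ∈ range (k + 1), ∑ b ∈ range (j + 1),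
        ((i0 k a * i0 j b + i1 k a * i0 j b + i0 k a * i1 j b) * M
      + (P n k a * i2 k a) * P n j b + P n k a * (P n j b * i2 j b)
      + (P n k a * i1 k a) * (P n j b * i1 j b))
      = ((∑ a ∈ range (k + 1), i0 k a) * (∑ b ∈ range (j + 1), i0 j b)
        + (∑ a ∈ range (k + 1), i1 k a) * (∑ b ∈ range (j + 1), i0 j b)
        + (∑ a ∈ range (k + 1), i0 k a) * (∑ b ∈ range (j + 1), i1 j b)) * M
       + (∑ a ∈ range (k + 1), P n k a * i2 k a) * (∑ b ∈ range (j + 1), P n j b)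
       + (∑ a ∈ range (k + 1), P n k a) * (∑ b ∈ range (j + 1), P n j b * i2 j b)
       + (∑ a ∈ range (k + 1), P n k a * i1 k a) * (∑ b ∈ range (j + 1), P n j b * i1 j b) := by
      rw [sum_mul_sum, sum_mul_sum, sum_mul_sum, sum_mul_sum, sum_mul_sum, sum_mul_sum, add_mul, add_mul,
        sum_mul, sum_mul, sum_mul, ← sum_add_distrib, ← sum_add_distrib, ← sum_add_distrib,
        ← sum_add_distrib, ← sum_add_distrib]
      apply sum_congr rfl; intro a _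
      rw [sum_mul, sum_mul, sum_mul, ← sum_add_distrib, ← sum_add_distrib, ← sum_add_distrib,
        ← sum_add_distrib, ← sum_add_distrib]
      apply sum_congr rfl; intro b _
      ring
    rw [heq, s0, s0, P_sum n k hn, P_sum n j hn]
    have hQk := Q_bound n k hn
    have hQj := Q_bound n j hn
    have hRk := R_bound n k hn
    have hRj := R_bound n j hn
    have hRk0 : 0 ≤ ∑ a ∈ range (k + 1), P n k a * i1 k a :=
      sum_nonneg fun a _ => mul_nonneg (P_nonneg n k a) (i1_nonneg k a)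
    have hRj0 : 0 ≤ ∑ a ∈ range (j + 1), P n j a * i1 j a :=
      sum_nonneg fun a _ => mul_nonneg (P_nonneg n j a) (i1_nonneg j a)
    have hRR : (∑ a ∈ range (k + 1), P n k a * i1 k a) * (∑ b ∈ range (j + 1), P n j b * i1 j b)
        ≤ ((k : ℝ) ^ 2 / n) * ((j : ℝ) ^ 2 / n) := mul_le_mul hRk hRj hRj0 (by positivity)
    have hk0 : (0 : ℝ) ≤ k := by positivity
    have hj0 : (0 : ℝ) ≤ j := by positivity
    have t1 : (k : ℝ) ^ 4 / (n : ℝ) ^ 2 ≤ M := by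
      rw [hM]; apply div_le_div_of_nonneg_right _ (by positivity)
      apply pow_le_pow_left₀ hk0; push_cast; linarith
    have t2 : (j : ℝ) ^ 4 / (n : ℝ) ^ 2 ≤ M := by
      rw [hM]; apply div_le_div_of_nonneg_right _ (by positivity)
      apply pow_le_pow_left₀ hj0; push_cast; linarith
    have t3 : ((k : ℝ) ^ 2 / n) * ((j : ℝ) ^ 2 / n) ≤ M := by
      have : ((k : ℝ) ^ 2 / n) * ((j : ℝ) ^ 2 / n) = ((k : ℝ) ^ 2 * (j : ℝ) ^ 2) / (n : ℝ) ^ 2 := by
        field_simp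
      rw [this, hM]; apply div_le_div_of_nonneg_right _ (by positivity)
      push_cast
      have g1 : (k : ℝ) ^ 2 ≤ ((k : ℝ) + j) ^ 2 := pow_le_pow_left₀ hk0 (by linarith) 2
      have g2 : (j : ℝ) ^ 2 ≤ ((k : ℝ) + j) ^ 2 := pow_le_pow_left₀ hj0 (by linarith) 2
      calc (k : ℝ) ^ 2 * (j : ℝ) ^ 2 ≤ ((k : ℝ) + j) ^ 2 * ((k : ℝ) + j) ^ 2 :=
            mul_le_mul g1 g2 (by positivity) (by positivity)
        _ = ((k : ℝ) + j) ^ 4 := by ring
    have t4 := s1 k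
    have t5 := s1 j
    have t4' : (∑ a ∈ range (k + 1), i1 k a) * M ≤ M := by nlinarith
    have t5' : (∑ a ∈ range (j + 1), i1 j a) * M ≤ M := by nlinarith
    have fin : 6 * ((k + j : ℕ) : ℝ) ^ 4 / (n : ℝ) ^ 2 = 6 * M := by rw [hM]; ring
    rw [fin]
    nlinarith
  simp only [← sum_mul]
  calc (∑ a ∈ range (k + 1), ∑ b ∈ range (j + 1), |u n k j a b - mainw n k j a b|) * (ρ₁ ^ k * ρ₂ ^ j)
      ≤ (6 * ((k + j : ℕ) : ℝ) ^ 4 / (n : ℝ) ^ 2) * (ρ₁ ^ k * ρ₂ ^ j) :=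
        mul_le_mul_of_nonneg_right hS (by positivity)
    _ = _ := by ring

/-! ### double power series -/

/-- `f` is the sum of the double power series with coefficients `a` on the open bidisc. -/
def HasBi (a : ℕ × ℕ → ℂ) (R₁ R₂ : ℝ) (f : ℂ → ℂ → ℂ) : Prop :=
  ∀ w₁ w₂ : ℂ, ‖w₁‖ < R₁ → ‖w₂‖ < R₂ → HasSum (fun p : ℕ × ℕ => a p * w₁ ^ p.1 * w₂ ^ p.2) (f w₁ w₂)

lemma poly_bound (m : ℕ) (ρ r : ℝ) (h0 : 0 ≤ ρ) (h1 : ρ < r) : ∃ C : ℝ, 0 ≤ C ∧ ∀ k : ℕ, ((k : ℝ)) ^ m * ρ ^ k ≤ C * r ^ k := by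
  have hr : 0 < r := lt_of_le_of_lt h0 h1
  have hc : |ρ / r| < 1 := by
    rw [abs_of_nonneg (by positivity), div_lt_one hr]; exact h1
  have ht := tendsto_pow_const_mul_const_pow_of_abs_lt_one m hc
  obtain ⟨C, hC⟩ := ht.bddAbove_range
  refine ⟨max C 0, le_max_right _ _, fun k => ?_⟩
  have h2 : (k : ℝ) ^ m * (ρ / r) ^ k ≤ max C 0 := (hC ⟨k, rfl⟩).trans (le_max_left _ _)
  have h3 : (k : ℝ) ^ m * ρ ^ k = ((k : ℝ) ^ m * (ρ / r) ^ k) * r ^ k := by
    rw [div_pow]; field_simp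
  rw [h3]
  exact mul_le_mul_of_nonneg_right h2 (by positivity)

lemma HasBi.summable_norm {a : ℕ × ℕ → ℂ} {R₁ R₂ : ℝ} {f : ℂ → ℂ → ℂ} (h : HasBi a R₁ R₂ f)
    {r₁ r₂ : ℝ} (h1 : 0 ≤ r₁) (h1' : r₁ < R₁) (h2 : 0 ≤ r₂) (h2' : r₂ < R₂) :
    Summable (fun p : ℕ × ℕ => ‖a p‖ * r₁ ^ p.1 * r₂ ^ p.2) := by
  have := (h (r₁ : ℂ) (r₂ : ℂ) (by rw [Complex.norm_real, Real.norm_eq_abs, abs_of_nonneg h1]; exact h1')
    (by rw [Complex.norm_real, Real.norm_eq_abs, abs_of_nonneg h2]; exact h2')).summable.norm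
  refine this.congr (fun p => ?_)
  rw [norm_mul, norm_mul, norm_pow, norm_pow, Complex.norm_real, Complex.norm_real, Real.norm_eq_abs,
    Real.norm_eq_abs, abs_of_nonneg h1, abs_of_nonneg h2]

lemma HasBi.deriv_one {a : ℕ × ℕ → ℂ} {R₁ R₂ : ℝ} {f : ℂ → ℂ → ℂ} (h : HasBi a R₁ R₂ f)
    (w₁ w₂ : ℂ) (h1 : ‖w₁‖ < R₁) (h2 : ‖w₂‖ < R₂) :
    HasSum (fun p : ℕ × ℕ => a p * ((p.1 : ℂ) * w₁ ^ (p.1 - 1)) * w₂ ^ p.2) (deriv (fun z => f z w₂) w₁) := by
  obtain ⟨r, hr1, hr2⟩ := exists_between h1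
  obtain ⟨r', hr1', hr2'⟩ := exists_between hr2
  have hr0 : 0 < r := lt_of_le_of_lt (norm_nonneg _) hr1
  obtain ⟨C, hC0, hC⟩ := poly_bound 1 r r' hr0.le hr1'
  have hsum : Summable (fun p : ℕ × ℕ => (C / r) * (‖a p‖ * r' ^ p.1 * ‖w₂‖ ^ p.2)) :=
    (h.summable_norm (by linarith) hr2' (norm_nonneg _) h2).mul_left _
  have hbound : ∀ (p : ℕ × ℕ) (z : ℂ), z ∈ Metric.ball (0 : ℂ) r →
      ‖a p * ((p.1 : ℂ) * z ^ (p.1 - 1)) * w₂ ^ p.2‖ ≤ (C / r) * (‖a p‖ * r' ^ p.1 * ‖w₂‖ ^ p.2) := by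
    intro p z hz
    have hz' : ‖z‖ ≤ r := by simpa using (mem_ball_zero_iff.mp hz).le
    rw [norm_mul, norm_mul, norm_mul, norm_pow, norm_pow, Complex.norm_natCast]
    have h3 : (p.1 : ℝ) * ‖z‖ ^ (p.1 - 1) ≤ (C / r) * r' ^ p.1 := by
      rcases Nat.eq_zero_or_pos p.1 with h0 | h0
      · rw [h0]; simp; positivity
      · have h4 : (p.1 : ℝ) * ‖z‖ ^ (p.1 - 1) ≤ (p.1 : ℝ) * r ^ (p.1 - 1) :=
          mul_le_mul_of_nonneg_left (pow_le_pow_left₀ (norm_nonneg _) hz' _) (by positivity)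
        have h5 : (p.1 : ℝ) * r ^ (p.1 - 1) = ((p.1 : ℝ) ^ 1 * r ^ p.1) / r := by
          obtain ⟨m, hm⟩ : ∃ m, p.1 = m + 1 := ⟨p.1 - 1, by omega⟩
          rw [hm]; simp [pow_succ]; field_simp
        rw [h5] at h4
        refine h4.trans ?_
        rw [div_mul_eq_mul_div]
        exact div_le_div_of_nonneg_right (hC p.1) hr0.le
    calc ‖a p‖ * ((p.1 : ℝ) * ‖z‖ ^ (p.1 - 1)) * ‖w₂‖ ^ p.2
        ≤ ‖a p‖ * ((C / r) * r' ^ p.1) * ‖w₂‖ ^ p.2 := by
          apply mul_le_mul_of_nonneg_right _ (by positivity)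
          exact mul_le_mul_of_nonneg_left h3 (norm_nonneg _)
      _ = _ := by ring
  have hderiv : ∀ (p : ℕ × ℕ) (z : ℂ), z ∈ Metric.ball (0 : ℂ) r →
      HasDerivAt (fun z => a p * z ^ p.1 * w₂ ^ p.2) (a p * ((p.1 : ℂ) * z ^ (p.1 - 1)) * w₂ ^ p.2) z := by
    intro p z _
    exact ((hasDerivAt_pow p.1 z).const_mul (a p)).mul_const _
  have hw : w₁ ∈ Metric.ball (0 : ℂ) r := mem_ball_zero_iff.mpr hr1
  have hs0 : Summable (fun p : ℕ × ℕ => a p * w₁ ^ p.1 * w₂ ^ p.2) := (h w₁ w₂ h1 h2).summable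
  have key := hasDerivAt_tsum_of_isPreconnected hsum Metric.isOpen_ball
    ((convex_ball (0 : ℂ) r).isPreconnected) hderiv hbound hw hs0 hw
  have hev : (fun z => f z w₂) =ᶠ[nhds w₁] (fun z => ∑' p : ℕ × ℕ, a p * z ^ p.1 * w₂ ^ p.2) := by
    filter_upwards [Metric.isOpen_ball.mem_nhds hw] with z hz
    have hz' : ‖z‖ < R₁ := (mem_ball_zero_iff.mp hz).trans (by linarith)
    exact (h z w₂ hz' h2).tsum_eq.symm
  rw [(key.congr_of_eventuallyEq hev).deriv]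
  exact (Summable.of_norm_bounded hsum (fun p => hbound p w₁ hw)).hasSum

lemma HasBi.shift_one {a : ℕ × ℕ → ℂ} {R₁ R₂ : ℝ} {f : ℂ → ℂ → ℂ} (h : HasBi a R₁ R₂ f) :
    HasBi (fun p => ((p.1 : ℂ) + 1) * a (p.1 + 1, p.2)) R₁ R₂ (fun w₁ w₂ => deriv (fun z => f z w₂) w₁) := by
  intro w₁ w₂ h1 h2
  have h3 := h.deriv_one w₁ w₂ h1 h2
  have hinj : Function.Injective (fun p : ℕ × ℕ => (p.1 + 1, p.2)) := by
    intro p q hpq
    simp only [Prod.mk.injEq, add_left_inj] at hpq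
    exact Prod.ext hpq.1 hpq.2
  rw [← hinj.hasSum_iff] at h3
  · have e : ((fun p : ℕ × ℕ => a p * ((p.1 : ℂ) * w₁ ^ (p.1 - 1)) * w₂ ^ p.2) ∘ fun p : ℕ × ℕ => (p.1 + 1, p.2))
        = fun p : ℕ × ℕ => ((p.1 : ℂ) + 1) * a (p.1 + 1, p.2) * w₁ ^ p.1 * w₂ ^ p.2 := by
      funext p
      simp only [Function.comp, Nat.add_sub_cancel]
      push_cast
      ring
    rw [e] at h3
    exact h3
  · intro p hp
    have h0 : p.1 = 0 := by
      by_contra h0
      apply hp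
      exact ⟨(p.1 - 1, p.2), by
        have : p.1 - 1 + 1 = p.1 := by omega
        simp only [this]⟩
    simp [h0]

lemma HasBi.swap {a : ℕ × ℕ → ℂ} {R₁ R₂ : ℝ} {f : ℂ → ℂ → ℂ} (h : HasBi a R₁ R₂ f) :
    HasBi (fun p => a (p.2, p.1)) R₂ R₁ (fun w₂ w₁ => f w₁ w₂) := by
  intro w₂ w₁ h2 h1
  have h3 := h w₁ w₂ h1 h2
  have h4 := (Equiv.prodComm ℕ ℕ).hasSum_iff.mpr h3
  have e : ((fun p : ℕ × ℕ => a p * w₁ ^ p.1 * w₂ ^ p.2) ∘ ⇑(Equiv.prodComm ℕ ℕ))
      = fun p : ℕ × ℕ => a (p.2, p.1) * w₂ ^ p.1 * w₁ ^ p.2 := by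
    funext p
    simp only [Function.comp, Equiv.prodComm_apply, Prod.swap]
    ring
  rw [e] at h4
  exact h4

lemma hasSum_congr' {f g : ℕ × ℕ → ℂ} {s : ℂ} (h : ∀ p, f p = g p) : HasSum f s ↔ HasSum g s := by
  rw [show f = g from funext h]

lemma unshift1 {G : ℕ × ℕ → ℂ} {s : ℂ} (h : HasSum (fun p : ℕ × ℕ => G (p.1 + 1, p.2)) s)
    (h0 : ∀ j, G (0, j) = 0) : HasSum G s := by
  have hinj : Function.Injective (fun p : ℕ × ℕ => (p.1 + 1, p.2)) := by
    intro p q hpq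
    simp only [Prod.mk.injEq, add_left_inj] at hpq
    exact Prod.ext hpq.1 hpq.2
  rw [← hinj.hasSum_iff]
  · exact h
  · intro p hp
    have h1 : p.1 = 0 := by
      by_contra h1
      apply hp
      exact ⟨(p.1 - 1, p.2), by
        have : p.1 - 1 + 1 = p.1 := by omega
        simp only [this]⟩
    have : p = (0, p.2) := Prod.ext h1 rfl
    rw [this]; exact h0 _

lemma swapsum {G : ℕ × ℕ → ℂ} {s : ℂ} (h : HasSum (fun p : ℕ × ℕ => G (p.2, p.1)) s) : HasSum G s := by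
  have h4 := (Equiv.prodComm ℕ ℕ).hasSum_iff (f := G) (a := s)
  exact h4.mp h

lemma unshift2 {G : ℕ × ℕ → ℂ} {s : ℂ} (h : HasSum (fun p : ℕ × ℕ => G (p.1, p.2 + 1)) s)
    (h0 : ∀ j, G (j, 0) = 0) : HasSum G s := by
  apply swapsum
  apply unshift1 (G := fun p => G (p.2, p.1)) _ (fun j => h0 j)
  apply swapsum
  exact h

lemma HasBi.d11 {a : ℕ × ℕ → ℂ} {R₁ R₂ : ℝ} {f : ℂ → ℂ → ℂ} (h : HasBi a R₁ R₂ f)
    (w₁ w₂ : ℂ) (h1 : ‖w₁‖ < R₁) (h2 : ‖w₂‖ < R₂) :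
    HasSum (fun p : ℕ × ℕ => a p * ((p.1 : ℂ) * ((p.1 : ℂ) - 1) * w₁ ^ (p.1 - 2) * w₂ ^ p.2))
      (deriv (fun z => deriv (fun z' => f z' w₂) z) w₁) := by
  have h3 := h.shift_one.deriv_one w₁ w₂ h1 h2
  apply unshift1 _ (fun j => by simp)
  refine (hasSum_congr' (fun p => ?_)).mp h3
  simp only [show p.1 + 1 - 2 = p.1 - 1 by omega]
  push_cast
  ring

lemma HasBi.d22 {a : ℕ × ℕ → ℂ} {R₁ R₂ : ℝ} {f : ℂ → ℂ → ℂ} (h : HasBi a R₁ R₂ f)
    (w₁ w₂ : ℂ) (h1 : ‖w₁‖ < R₁) (h2 : ‖w₂‖ < R₂) :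
    HasSum (fun p : ℕ × ℕ => a p * (w₁ ^ p.1 * ((p.2 : ℂ) * ((p.2 : ℂ) - 1) * w₂ ^ (p.2 - 2))))
      (deriv (fun z => deriv (fun z' => f w₁ z') z) w₂) := by
  have h3 := h.swap.d11 w₂ w₁ h2 h1
  apply swapsum
  refine (hasSum_congr' (fun p => ?_)).mp h3
  ring

lemma HasBi.d12 {a : ℕ × ℕ → ℂ} {R₁ R₂ : ℝ} {f : ℂ → ℂ → ℂ} (h : HasBi a R₁ R₂ f)
    (w₁ w₂ : ℂ) (h1 : ‖w₁‖ < R₁) (h2 : ‖w₂‖ < R₂) :
    HasSum (fun p : ℕ × ℕ => a p * (((p.1 : ℂ) * w₁ ^ (p.1 - 1)) * ((p.2 : ℂ) * w₂ ^ (p.2 - 1))))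
      (deriv (fun z => deriv (fun y => f z y) w₂) w₁) := by
  have h3 := h.swap.shift_one.swap.deriv_one w₁ w₂ h1 h2
  apply unshift2 _ (fun j => by simp)
  refine (hasSum_congr' (fun p => ?_)).mp h3
  simp only [Nat.add_sub_cancel]
  push_cast
  ring

/-- The remainder in the Voronovskaja-type formula. -/
noncomputable def remainder (n : ℕ) (f : ℂ → ℂ → ℂ) (w₁ w₂ : ℂ) : ℂ :=
  bern n f w₁ w₂ - f w₁ w₂ - 1 / (2 * n) *
    (w₁ * (1 - w₁) * deriv (fun z => deriv (fun z' => f z' w₂) z) w₁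
      - 2 * w₁ * w₂ * deriv (fun z => deriv (fun y => f z y) w₂) w₁
      + w₂ * (1 - w₂) * deriv (fun z => deriv (fun z' => f w₁ z') z) w₂)

lemma HasBi.bern_sum {a : ℕ × ℕ → ℂ} {R₁ R₂ : ℝ} {f : ℂ → ℂ → ℂ} (h : HasBi a R₁ R₂ f) (hR1 : 1 < R₁)
    (hR2 : 1 < R₂) (n : ℕ) (hn : 1 ≤ n) (x y : ℂ) :
    HasSum (fun p : ℕ × ℕ => a p * bern n (fun u v => u ^ p.1 * v ^ p.2) x y) (bern n f x y) := by
  have h1 : ∀ k ∈ range (n + 1), ∀ j ∈ range (n + 1 - k), HasSum (fun p : ℕ × ℕ =>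
      ((n.factorial : ℂ) / ((k.factorial : ℂ) * (j.factorial : ℂ) * ((n - k - j).factorial : ℂ)))
      * x ^ k * y ^ j * (1 - x - y) ^ (n - k - j) * (a p * ((k : ℂ) / n) ^ p.1 * ((j : ℂ) / n) ^ p.2))
      (((n.factorial : ℂ) / ((k.factorial : ℂ) * (j.factorial : ℂ) * ((n - k - j).factorial : ℂ)))
      * x ^ k * y ^ j * (1 - x - y) ^ (n - k - j) * f ((k : ℂ) / n) ((j : ℂ) / n)) := by
    intro k hk j hj
    have hk' : k ≤ n := by simpa [Nat.lt_succ_iff] using hk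
    have hj' : j ≤ n := by
      have := mem_range.mp hj; omega
    have hn0 : (0 : ℝ) < n := by positivity
    apply HasSum.mul_left
    apply h
    · rw [norm_div, Complex.norm_natCast, Complex.norm_natCast]
      have : (k : ℝ) / n ≤ 1 := by rw [div_le_one hn0]; exact_mod_cast hk'
      linarith
    · rw [norm_div, Complex.norm_natCast, Complex.norm_natCast]
      have : (j : ℝ) / n ≤ 1 := by rw [div_le_one hn0]; exact_mod_cast hj'
      linarith
  have h2 := hasSum_sum (fun k hk => hasSum_sum (h1 k hk))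
  unfold bern
  refine (hasSum_congr' (fun p => ?_)).mp h2
  rw [mul_sum]
  apply sum_congr rfl; intro k _
  rw [mul_sum]
  apply sum_congr rfl; intro j _
  ring

/-- **Main result.** -/
theorem result (R₁ R₂ : ℝ) (hR₁ : 1 < R₁) (hR₂ : 1 < R₂) (f : ℂ → ℂ → ℂ)
    (hf : ∃ a : ℕ × ℕ → ℂ, HasBi a R₁ R₂ f) (ρ₁ ρ₂ : ℝ) (h₁ : 1 ≤ ρ₁) (h₁' : ρ₁ < R₁)
    (h₂ : 1 ≤ ρ₂) (h₂' : ρ₂ < R₂) :
    ∃ C : ℝ, ∀ n : ℕ, 1 ≤ n → ∀ w₁ w₂ : ℂ, ‖w₁‖ ≤ ρ₁ → ‖w₂‖ ≤ ρ₂ →
      ‖remainder n f w₁ w₂‖ ≤ C / (n : ℝ) ^ 2 := by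
  obtain ⟨a, ha⟩ := hf
  have hs : Summable (fun p : ℕ × ℕ => ‖a p‖ * (6 * ((p.1 + p.2 : ℕ) : ℝ) ^ 4 * ρ₁ ^ p.1 * ρ₂ ^ p.2)) := by
    obtain ⟨r₁, hr1, hr1'⟩ := exists_between h₁'
    obtain ⟨r₂, hr2, hr2'⟩ := exists_between h₂'
    obtain ⟨C₁, hC1, hC1'⟩ := poly_bound 4 ρ₁ r₁ (by linarith) hr1
    obtain ⟨C₂, hC2, hC2'⟩ := poly_bound 4 ρ₂ r₂ (by linarith) hr2
    have hsn := ha.summable_norm (r₁ := r₁) (r₂ := r₂) (by linarith) hr1' (by linarith) hr2'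
    refine Summable.of_nonneg_of_le (fun p => by positivity) (fun p => ?_) (hsn.mul_left (48 * (C₁ + C₂)))
    have b1 := hC1' p.1
    have b2 := hC2' p.2
    have hr1p : (0 : ℝ) ≤ r₁ := by linarith
    have hr2p : (0 : ℝ) ≤ r₂ := by linarith
    have g1 : ρ₁ ^ p.1 ≤ r₁ ^ p.1 := pow_le_pow_left₀ (by linarith) hr1.le _
    have g2 : ρ₂ ^ p.2 ≤ r₂ ^ p.2 := pow_le_pow_left₀ (by linarith) hr2.le _
    have g1' : (0 : ℝ) ≤ ρ₁ ^ p.1 := by positivity
    have g2' : (0 : ℝ) ≤ ρ₂ ^ p.2 := by positivity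
    have g3 : (((p.1 + p.2 : ℕ) : ℝ)) ^ 4 ≤ 8 * ((p.1 : ℝ) ^ 4 + (p.2 : ℝ) ^ 4) := by
      push_cast
      nlinarith [sq_nonneg ((p.1 : ℝ) - p.2), sq_nonneg ((p.1 : ℝ) ^ 2 - (p.2 : ℝ) ^ 2),
        sq_nonneg ((p.1 : ℝ) + p.2), sq_nonneg (((p.1 : ℝ) - p.2) * ((p.1 : ℝ) + p.2)),
        sq_nonneg (((p.1 : ℝ) - p.2) ^ 2)]
    have g4 : (((p.1 + p.2 : ℕ) : ℝ)) ^ 4 * ρ₁ ^ p.1 * ρ₂ ^ p.2 ≤ 8 * (C₁ + C₂) * (r₁ ^ p.1 * r₂ ^ p.2) := by
      calc (((p.1 + p.2 : ℕ) : ℝ)) ^ 4 * ρ₁ ^ p.1 * ρ₂ ^ p.2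
          ≤ (8 * ((p.1 : ℝ) ^ 4 + (p.2 : ℝ) ^ 4)) * ρ₁ ^ p.1 * ρ₂ ^ p.2 := by gcongr
        _ = 8 * (((p.1 : ℝ) ^ 4 * ρ₁ ^ p.1) * ρ₂ ^ p.2 + ρ₁ ^ p.1 * ((p.2 : ℝ) ^ 4 * ρ₂ ^ p.2)) := by ring
        _ ≤ 8 * ((C₁ * r₁ ^ p.1) * r₂ ^ p.2 + r₁ ^ p.1 * (C₂ * r₂ ^ p.2)) := by gcongr
        _ = _ := by ring
    calc ‖a p‖ * (6 * ((p.1 + p.2 : ℕ) : ℝ) ^ 4 * ρ₁ ^ p.1 * ρ₂ ^ p.2)
        = 6 * ‖a p‖ * (((p.1 + p.2 : ℕ) : ℝ) ^ 4 * ρ₁ ^ p.1 * ρ₂ ^ p.2) := by ring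
      _ ≤ 6 * ‖a p‖ * (8 * (C₁ + C₂) * (r₁ ^ p.1 * r₂ ^ p.2)) := by gcongr
      _ = _ := by ring
  refine ⟨∑' p : ℕ × ℕ, ‖a p‖ * (6 * ((p.1 + p.2 : ℕ) : ℝ) ^ 4 * ρ₁ ^ p.1 * ρ₂ ^ p.2), ?_⟩
  intro n hn x y hx hy
  have hx' : ‖x‖ < R₁ := by linarith
  have hy' : ‖y‖ < R₂ := by linarith
  have hE : HasSum (fun p : ℕ × ℕ => a p * Errm n p.1 p.2 x y) (remainder n f x y) := by
    have s1 := ha.bern_sum hR₁ hR₂ n hn x y
    have s2 := ha x y hx' hy'
    have s3 := (ha.d11 x y hx' hy').mul_left (1 / (2 * (n : ℂ)) * (x * (1 - x)))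
    have s4 := (ha.d12 x y hx' hy').mul_left (1 / (2 * (n : ℂ)) * (2 * x * y))
    have s5 := (ha.d22 x y hx' hy').mul_left (1 / (2 * (n : ℂ)) * (y * (1 - y)))
    have s6 := (s1.sub s2).sub ((s3.sub s4).add s5)
    have e : remainder n f x y = bern n f x y - f x y - (1 / (2 * (n : ℂ)) * (x * (1 - x)) * deriv (fun z => deriv (fun z' => f z' y) z) x
      - 1 / (2 * (n : ℂ)) * (2 * x * y) * deriv (fun z => deriv (fun y => f z y) y) x
      + 1 / (2 * (n : ℂ)) * (y * (1 - y)) * deriv (fun z => deriv (fun z' => f x z') z) y) := by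
      unfold remainder; ring
    rw [e]
    refine (hasSum_congr' (fun p => ?_)).mp s6
    unfold Errm
    ring
  have hn2 : (0 : ℝ) < (n : ℝ) ^ 2 := by positivity
  have hb : ∀ p : ℕ × ℕ, ‖a p * Errm n p.1 p.2 x y‖ ≤
      (‖a p‖ * (6 * ((p.1 + p.2 : ℕ) : ℝ) ^ 4 * ρ₁ ^ p.1 * ρ₂ ^ p.2)) / (n : ℝ) ^ 2 := by
    intro p
    rw [norm_mul, mul_div_assoc]
    exact mul_le_mul_of_nonneg_left (Errm_bound n p.1 p.2 hn x y ρ₁ ρ₂ h₁ h₂ hx hy) (norm_nonneg _)
  rw [← hE.tsum_eq, ← tsum_div_const]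
  have hs' := hs.div_const ((n : ℝ) ^ 2)
  have hsn : Summable (fun p : ℕ × ℕ => ‖a p * Errm n p.1 p.2 x y‖) :=
    Summable.of_nonneg_of_le (fun _ => norm_nonneg _) hb hs'
  exact (norm_tsum_le_tsum_norm hsn).trans (hsn.tsum_le_tsum hb hs')

end Pool.Agent.Results.MP_814f17_an.VoronovskajaEstimate
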